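import Pool.Agent.H14R2.RD.Defs

namespace RC14
open scoped InnerProductSpace
open Finset

variable {V : Type*} [NormedAddCommGroup V] [InnerProductSpace ℂ V] [FiniteDimensional ℂ V]

namespace TRPaux

lemma pow_succ_rot (X Y : Module.End ℂ V) (k : ℕ) :
    (X * Y) ^ (k + 1) = X * ((Y * X) ^ k * Y) := by
  induction k with
  | zero => simp
  | succ k ih =>
    rw [pow_succ (X * Y) (k + 1), ih, pow_succ (Y * X) k]
    simp only [mul_assoc]

lemma tr_cyc (X Y : Module.End ℂ V) (k : ℕ) :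
    LinearMap.trace ℂ V ((X * Y) ^ k) = LinearMap.trace ℂ V ((Y * X) ^ k) := by
  cases k with
  | zero => simp
  | succ k =>
    rw [pow_succ_rot, LinearMap.trace_mul_comm, mul_assoc, ← pow_succ]

/-- positive symmetric operators -/
def Pos (A : Module.End ℂ V) : Prop := A.IsSymmetric ∧ ∀ v, 0 ≤ (⟪A v, v⟫_ℂ).re

lemma adj_mul (A B : Module.End ℂ V) :
    LinearMap.adjoint (A * B) = LinearMap.adjoint B * LinearMap.adjoint A :=
  LinearMap.adjoint_comp A B

lemma Pos.sq {A : Module.End ℂ V} (hA : Pos A) : Pos (A * A) := by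
  refine ⟨fun v w => ?_, fun v => ?_⟩
  · rw [Module.End.mul_apply, Module.End.mul_apply, hA.1, hA.1]
  · rw [Module.End.mul_apply, hA.1]
    exact inner_self_nonneg (𝕜 := ℂ)

lemma pos_adj_mul (C : Module.End ℂ V) : Pos (LinearMap.adjoint C * C) := by
  refine ⟨fun v w => ?_, fun v => ?_⟩
  · rw [Module.End.mul_apply, Module.End.mul_apply, LinearMap.adjoint_inner_left,
      LinearMap.adjoint_inner_right]
  · rw [Module.End.mul_apply, LinearMap.adjoint_inner_left]
    exact inner_self_nonneg (𝕜 := ℂ)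

lemma pos_mul_adj (C : Module.End ℂ V) : Pos (C * LinearMap.adjoint C) := by
  have := pos_adj_mul (LinearMap.adjoint C)
  rwa [LinearMap.adjoint_adjoint] at this

lemma tr_pos_mul {A B : Module.End ℂ V} (hA : Pos A) (hB : Pos B) :
    ‖LinearMap.trace ℂ V (A * B)‖ ≤ rtr (A * B) := by
  set b := hA.1.eigenvectorBasis rfl with hb
  have key : LinearMap.trace ℂ V (A * B) =
      ((∑ i, hA.1.eigenvalues rfl i * (⟪B (b i), b i⟫_ℂ).re : ℝ) : ℂ) := by
    rw [LinearMap.trace_eq_sum_inner _ b]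
    push_cast
    refine Finset.sum_congr rfl fun i _ => ?_
    rw [Module.End.mul_apply, ← hA.1, hA.1.apply_eigenvectorBasis, inner_smul_left]
    have h1 : ⟪b i, B (b i)⟫_ℂ = ((⟪B (b i), b i⟫_ℂ).re : ℂ) := by
      rw [← hB.1]
      have := hB.1.coe_re_inner_apply_self (b i)
      exact this.symm
    rw [h1]
    simp
  have hnn : 0 ≤ ∑ i, hA.1.eigenvalues rfl i * (⟪B (b i), b i⟫_ℂ).re := by
    refine Finset.sum_nonneg fun i _ => mul_nonneg ?_ (hB.2 _)
    have h1 := hA.2 (b i)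
    rw [hA.1.apply_eigenvectorBasis, inner_smul_left, inner_self_eq_norm_sq_to_K,
      OrthonormalBasis.norm_eq_one] at h1
    simpa using h1
  unfold rtr
  rw [key, Complex.norm_real, Complex.ofReal_re, Real.norm_of_nonneg hnn]

lemma adj_pow (A : Module.End ℂ V) (hA : A.IsSymmetric) (k : ℕ) :
    LinearMap.adjoint (A ^ k) = A ^ k := by
  induction k with
  | zero =>
    rw [pow_zero]
    exact HSL.adjoint_symm _ (fun v w => rfl)
  | succ k ih => rw [pow_succ, adj_mul, HSL.adjoint_symm A hA, ih, ← pow_succ', ← pow_succ]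

lemma main (m : ℕ) :
    (∀ C : Module.End ℂ V, ‖LinearMap.trace ℂ V (C ^ 2 ^ (m + 1))‖ ≤
      rtr ((LinearMap.adjoint C * C) ^ 2 ^ m)) ∧
    (∀ A B : Module.End ℂ V, Pos A → Pos B →
      ‖LinearMap.trace ℂ V ((A * B) ^ 2 ^ m)‖ ≤ rtr (A ^ 2 ^ m * B ^ 2 ^ m)) := by
  induction m with
  | zero =>
    constructor
    · intro C
      have h1 := trace_mul_le C C
      have h2 := hs_nonneg C
      simp only [zero_add, pow_one, pow_zero]
      rw [pow_two C]
      have h3 : rtr (LinearMap.adjoint C * C) = hs C := rfl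
      rw [h3]
      rw [← pow_two (hs C)] at h1
      exact (pow_le_pow_iff_left₀ (norm_nonneg _) h2 two_ne_zero).1 h1
    · intro A B hA hB
      simpa using tr_pos_mul hA hB
  | succ m ih =>
    obtain ⟨hW, hP⟩ := ih
    constructor
    · intro C
      set D := LinearMap.adjoint C with hD
      have e1 : C ^ 2 ^ (m + 1 + 1) = (C * C) ^ 2 ^ (m + 1) := by
        rw [← pow_two, ← pow_mul, ← pow_succ']
      have h1 := hW (C * C)
      rw [adj_mul, ← hD] at h1
      have e2 : rtr ((D * D * (C * C)) ^ 2 ^ m) = rtr (((D * C) * (C * D)) ^ 2 ^ m) := by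
        unfold rtr
        have := tr_cyc D (D * (C * C)) (2 ^ m)
        rw [← mul_assoc] at this
        rw [this]
        simp only [mul_assoc]
      have h2 := hP (D * C) (C * D) (pos_adj_mul C) (pos_mul_adj C)
      have h3 : rtr (((D * C) * (C * D)) ^ 2 ^ m) ≤
          ‖LinearMap.trace ℂ V (((D * C) * (C * D)) ^ 2 ^ m)‖ := Complex.re_le_norm _
      have h4 : rtr ((D * C) ^ 2 ^ m * (C * D) ^ 2 ^ m) ≤
          ‖LinearMap.trace ℂ V ((D * C) ^ 2 ^ m * (C * D) ^ 2 ^ m)‖ := Complex.re_le_norm _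
      have h5 := trace_mul_le ((D * C) ^ 2 ^ m) ((C * D) ^ 2 ^ m)
      have e3 : hs ((D * C) ^ 2 ^ m) = rtr ((D * C) ^ 2 ^ (m + 1)) := by
        unfold hs
        rw [adj_pow _ (pos_adj_mul C).1, ← pow_add, ← two_mul, ← pow_succ']
      have e4 : hs ((C * D) ^ 2 ^ m) = rtr ((D * C) ^ 2 ^ (m + 1)) := by
        unfold hs
        rw [adj_pow _ (pos_mul_adj C).1, ← pow_add, ← two_mul, ← pow_succ']
        unfold rtr
        rw [tr_cyc]
      have h6 : 0 ≤ rtr ((D * C) ^ 2 ^ (m + 1)) := by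
        rw [← e3]; exact hs_nonneg _
      rw [e3, e4, ← pow_two (rtr _)] at h5
      have h7 := (pow_le_pow_iff_left₀ (norm_nonneg _) h6 two_ne_zero).1 h5
      rw [e1]
      calc _ ≤ _ := h1
        _ = _ := e2
        _ ≤ _ := h3
        _ ≤ _ := h2
        _ ≤ _ := h4
        _ ≤ _ := h7
    · intro A B hA hB
      have h1 := hW (A * B)
      rw [adj_mul, HSL.adjoint_symm A hA.1, HSL.adjoint_symm B hB.1] at h1
      have e2 : rtr ((B * A * (A * B)) ^ 2 ^ m) = rtr (((A * A) * (B * B)) ^ 2 ^ m) := by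
        unfold rtr
        have := tr_cyc B (A * (A * B)) (2 ^ m)
        rw [← mul_assoc] at this
        rw [this]
        simp only [mul_assoc]
      have h3 : rtr (((A * A) * (B * B)) ^ 2 ^ m) ≤
          ‖LinearMap.trace ℂ V (((A * A) * (B * B)) ^ 2 ^ m)‖ := Complex.re_le_norm _
      have h2 := hP (A * A) (B * B) hA.sq hB.sq
      have e3 : (A * A) ^ 2 ^ m * (B * B) ^ 2 ^ m = A ^ 2 ^ (m + 1) * B ^ 2 ^ (m + 1) := by
        rw [← pow_two, ← pow_two, ← pow_mul, ← pow_mul, ← pow_succ']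
      rw [e3] at h2
      calc _ ≤ _ := h1
        _ = _ := e2
        _ ≤ _ := h3
        _ ≤ _ := h2

end TRPaux

/-- for positive `A`, `B`: `tr (AB)^{2^m} ≤ tr A^{2^m} B^{2^m}` -/
theorem TRP (A B : Module.End ℂ V) (hA : A.IsSymmetric) (hB : B.IsSymmetric)
    (hA0 : ∀ v, 0 ≤ (⟪A v, v⟫_ℂ).re) (hB0 : ∀ v, 0 ≤ (⟪B v, v⟫_ℂ).re) (m : ℕ) :
    rtr ((A * B) ^ 2 ^ m) ≤ rtr (A ^ 2 ^ m * B ^ 2 ^ m) :=
  (Complex.re_le_norm _).trans ((TRPaux.main m).2 A B ⟨hA, hA0⟩ ⟨hB, hB0⟩)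

end RC14
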